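import Pool.Agent.Lib.MP_ae319b_an.Upper
import Pool.Agent.Lib.MP_ae319b_an.Lower

open Pool.Agent.Lib.MP_ae319b_an

namespace Pool.Agent.Results.MP_ae319b_an.SingularDimension

/-- For `1 < p < 2`, every `N ≥ 1` and every nonempty bounded open `Ω ⊆ ℝ^N`, the singular
dimension of the set of weak solutions `u ∈ W_0^{1,p}(Ω)` of `-Δ_p u = F`, `F ∈ L^{p'}(Ω)`, is
`(N - p p')⁺`. -/
theorem result (p : ℝ) (hp1 : 1 < p) (hp2 : p < 2) (N : ℕ) (hN : 1 ≤ N) (Ω : Set (Eu N))
    (hΩ : IsOpen Ω) (hne : Ω.Nonempty) (hb : Bornology.IsBounded Ω) :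
    singularDim Ω (solutionSet Ω p) = ENNReal.ofReal ((N : ℝ) - p * (p / (p - 1))) := by
  apply le_antisymm
  · exact iSup₂_le fun u hu => dimH_singularSet_le hN hΩ hb hp1 hp2 hu
  · rcases le_or_gt ((N : ℝ) - p * (p / (p - 1))) 0 with h | h
    · rw [ENNReal.ofReal_of_nonpos h]
      exact zero_le
    · apply le_of_forall_lt
      intro c hc
      have hcfin : c ≠ ⊤ := (lt_of_lt_of_le hc le_top).ne
      have h1 : c.toReal < (N : ℝ) - p * (p / (p - 1)) := by
        rwa [← ENNReal.ofReal_toReal hcfin, ENNReal.ofReal_lt_ofReal_iff h] at hc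
      obtain ⟨D, hD1, hD2⟩ := exists_between h1
      obtain ⟨u, hu, hdim⟩ := exists_large hΩ hne hb hp1 hp2
        (ENNReal.toReal_nonneg.trans hD1.le) hD2
      calc c = ENNReal.ofReal c.toReal := (ENNReal.ofReal_toReal hcfin).symm
        _ < ENNReal.ofReal D := by
            rw [ENNReal.ofReal_lt_ofReal_iff (lt_of_le_of_lt ENNReal.toReal_nonneg hD1)]
            exact hD1
        _ ≤ dimH (singularSet Ω u) := hdim
        _ ≤ _ := le_iSup₂ (f := fun u (_ : u ∈ solutionSet Ω p) => dimH (singularSet Ω u)) u hu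

end Pool.Agent.Results.MP_ae319b_an.SingularDimension
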